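import Pool.Agent.W223.HZ.Stms

set_option autoImplicit false

namespace Pool.Agent.W284.HZFIB

open Pool.Agent.W223.HZ

lemma card_Icc_floor (x : ℝ) (hx : 0 ≤ x) :
    ((Finset.Icc ⌊-x⌋ ⌊x⌋).card : ℝ) ≤ 2 * x + 2 := by
  rw [Int.card_Icc]
  have h1 : (⌊x⌋ : ℝ) ≤ x := Int.floor_le x
  have h2 : -x - 1 < (⌊-x⌋ : ℝ) := Int.sub_one_lt_floor (-x)
  have h3 : (0 : ℤ) ≤ ⌊x⌋ + 1 - ⌊-x⌋ := by
    have : ⌊-x⌋ ≤ ⌊x⌋ := Int.floor_mono (by linarith)
    omega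
  have h4 : (((⌊x⌋ + 1 - ⌊-x⌋).toNat : ℕ) : ℝ) = ((⌊x⌋ + 1 - ⌊-x⌋ : ℤ) : ℝ) := by
    have := Int.toNat_of_nonneg h3
    exact_mod_cast this
  rw [h4]
  push_cast
  linarith

lemma floor_eq_abs {x y L : ℝ} (hL : 0 < L) (h : ⌊x / L⌋ = ⌊y / L⌋) : |x - y| ≤ L := by
  have h1 := Int.abs_sub_lt_one_of_floor_eq_floor h
  rw [← sub_div, abs_div, abs_of_pos hL, div_lt_one hL] at h1
  exact h1.le

lemma fibre (D : Finset ℤ) (y : ℤ → ℝ) (X L c Y B : ℝ) (hX : 0 ≤ X) (hL : 0 < L) (hc : 0 < c)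
    (hY : 0 ≤ Y) (hB : 0 ≤ B) (hd : ∀ d ∈ D, |(d : ℝ)| ≤ X) (hy : ∀ d ∈ D, |y d| ≤ Y)
    (hfib : ∀ D' : Finset ℤ, D' ⊆ D → (∀ d ∈ D', ∀ d' ∈ D', |y d - y d'| ≤ c) →
      (∀ d ∈ D', ∀ d' ∈ D', |(d : ℝ) - d'| ≤ L) → (D'.card : ℝ) ≤ B) :
    (D.card : ℝ) ≤ B * ((2 * (X / L) + 2) * (2 * (Y / c) + 2)) := by
  classical
  set t : Finset (ℤ × ℤ) := Finset.Icc ⌊-(X / L)⌋ ⌊X / L⌋ ×ˢ Finset.Icc ⌊-(Y / c)⌋ ⌊Y / c⌋ with ht
  set f : ℤ → ℤ × ℤ := fun d => (⌊(d : ℝ) / L⌋, ⌊y d / c⌋) with hf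
  have h1 : ∀ a ∈ D, f a ∈ t := by
    intro a ha
    have e1 := abs_le.1 (hd a ha)
    have e2 := abs_le.1 (hy a ha)
    rw [ht, Finset.mem_product, Finset.mem_Icc, Finset.mem_Icc]
    refine ⟨⟨Int.floor_mono ?_, Int.floor_mono ?_⟩, Int.floor_mono ?_, Int.floor_mono ?_⟩
    · rw [← neg_div]
      exact div_le_div_of_nonneg_right e1.1 hL.le
    · exact div_le_div_of_nonneg_right e1.2 hL.le
    · rw [← neg_div]
      exact div_le_div_of_nonneg_right e2.1 hc.le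
    · exact div_le_div_of_nonneg_right e2.2 hc.le
  have h2 : ∀ b ∈ t, (D.filter fun a => f a = b).card ≤ ⌊B⌋₊ := by
    intro b _
    rw [Nat.le_floor_iff hB]
    refine hfib _ (Finset.filter_subset _ _) ?_ ?_
    · intro d hd1 d' hd2
      rw [Finset.mem_filter] at hd1 hd2
      have e : f d = f d' := hd1.2.trans hd2.2.symm
      exact floor_eq_abs hc (Prod.mk.inj e).2
    · intro d hd1 d' hd2
      rw [Finset.mem_filter] at hd1 hd2
      have e : f d = f d' := hd1.2.trans hd2.2.symm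
      exact floor_eq_abs hL (Prod.mk.inj e).1
  have h3 := Finset.card_le_mul_card_image_of_maps_to h1 _ h2
  have h4 : (D.card : ℝ) ≤ (⌊B⌋₊ : ℝ) * (t.card : ℝ) := by exact_mod_cast h3
  have h5 : (⌊B⌋₊ : ℝ) ≤ B := Nat.floor_le hB
  have h6 : (t.card : ℝ) ≤ (2 * (X / L) + 2) * (2 * (Y / c) + 2) := by
    rw [ht, Finset.card_product, Nat.cast_mul]
    have hXL : 0 ≤ X / L := div_nonneg hX hL.le
    exact mul_le_mul (card_Icc_floor _ hXL) (card_Icc_floor _ (div_nonneg hY hc.le))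
      (Nat.cast_nonneg _) (by linarith)
  exact h4.trans (mul_le_mul h5 h6 (Nat.cast_nonneg _) hB)

lemma y2_bound {R T V : ℝ} {a b c d p q : ℤ} (hT : 0 < T) (hV : 0 < V)
    (hg : Good 200 R T V a b c d p q) (hc : Chart2 200 R T V a b c p q) :
    |(p : ℝ) / (T ^ 2 * q)| ≤ 40000 := by
  have h1 := hc.1
  have h2 := hg.hp
  have hq : 0 < |(q : ℝ)| := by
    by_contra h
    have h0 : |(q : ℝ)| = 0 := le_antisymm (not_lt.1 h) (abs_nonneg _)
    rw [h0] at h1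
    linarith
  rw [abs_div, abs_mul, abs_of_pos (pow_pos hT 2), div_le_iff₀ (by positivity)]
  calc |(p : ℝ)| ≤ 200 * (T * V) := h2
    _ ≤ 200 * (T * (200 * (|(q : ℝ)| * T))) := by gcongr
    _ = 40000 * (T ^ 2 * |(q : ℝ)|) := by ring

lemma y1_bound {R T V : ℝ} {a b c d p q : ℤ} (hT : 0 < T) (hV : 0 < V)
    (hg : Good 200 R T V a b c d p q) (hc : Chart1 200 R T V b c d p q) :
    |(q : ℝ) * T ^ 2 / p| ≤ 40000 := by
  have h1 := hc.1
  have h2 := hg.hq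
  have hp : 0 < |(p : ℝ)| := by
    by_contra h
    have h0 : |(p : ℝ)| = 0 := le_antisymm (not_lt.1 h) (abs_nonneg _)
    rw [h0] at h1
    have := mul_pos hT hV
    linarith
  rw [abs_div, abs_mul, abs_of_pos (pow_pos hT 2), div_le_iff₀ hp]
  calc |(q : ℝ)| * T ^ 2 = (|(q : ℝ)| * T) * T := by ring
    _ ≤ (200 * V) * T := by gcongr
    _ = 200 * (T * V) := by ring
    _ ≤ 200 * (200 * |(p : ℝ)|) := by gcongr
    _ = 40000 * |(p : ℝ)| := by ring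

theorem t (h2 : Pool.Agent.W223.HZ.StmtIN2) (h1 : Pool.Agent.W223.HZ.StmtIN1) :
    Pool.Agent.W223.HZ.StmtFIB := by
  obtain ⟨c₂, S₂, hc₂, hS₂, h2⟩ := h2
  obtain ⟨c₁, S₁, hc₁, hS₁, h1⟩ := h1
  obtain ⟨K, hK⟩ : ∃ K : ℝ, K = 402 * ((2 * (40000 / c₂) + 2) + (2 * (40000 / c₁) + 2)) :=
    ⟨_, rfl⟩
  have hK1 : 1 ≤ K := by
    have e1 : 0 < 40000 / c₂ := by positivity
    have e2 : 0 < 40000 / c₁ := by positivity
    rw [hK]
    linarith
  obtain ⟨S₃, hS₃⟩ : ∃ S₃ : ℝ, S₃ = K ^ (1200 : ℝ) := ⟨_, rfl⟩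
  refine ⟨max (max S₁ S₂) S₃, le_trans hS₁ (le_trans (le_max_left _ _) (le_max_left _ _)),
    ?_⟩
  intro R T V a b c 𝒟 ha hcube hR hT hS hV hlog hex
  have hSS1 : S₁ ≤ R * T ^ 3 := le_trans (le_trans (le_max_left _ _) (le_max_left _ _)) hS
  have hSS2 : S₂ ≤ R * T ^ 3 := le_trans (le_trans (le_max_right _ _) (le_max_left _ _)) hS
  have hSK : S₃ ≤ R * T ^ 3 := le_trans (le_max_right _ _) hS
  have hT0 : 0 < T := by linarith
  set S : ℝ := R * T ^ 3 with hSdef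
  have hS1 : 1 ≤ S := hS₁.trans hSS1
  have hS0 : 0 < S := by linarith
  have hV0 : 0 < V := lt_of_lt_of_le (Real.rpow_pos_of_pos hS0 _) hV
  choose! p q hpq using hex
  classical
  set D2 : Finset ℤ := 𝒟.filter fun d => Chart2 200 R T V a b c (p d) (q d) with hD2
  set D1 : Finset ℤ := 𝒟.filter fun d => ¬ Chart2 200 R T V a b c (p d) (q d) with hD1
  have hcard : D2.card + D1.card = 𝒟.card := Finset.card_filter_add_card_filter_not _
  set L : ℝ := S ^ ((1 : ℝ) / 11) with hL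
  have hL0 : 0 < L := Real.rpow_pos_of_pos hS0 _
  set B : ℝ := S ^ ((1 : ℝ) / 22 + 1 / 400) with hBdef
  have hB0 : 0 ≤ B := (Real.rpow_pos_of_pos hS0 _).le
  have k2 : (D2.card : ℝ) ≤ B * ((2 * (200 * S / L) + 2) * (2 * (40000 / c₂) + 2)) := by
    refine fibre D2 (fun d => (p d : ℝ) / (T ^ 2 * q d)) (200 * S) L c₂ 40000 B (by positivity)
      hL0 hc₂ (by norm_num) hB0 ?_ ?_ ?_
    · intro d hd
      rw [hD2, Finset.mem_filter] at hd
      exact (hpq d hd.1).1.hd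
    · intro d hd
      rw [hD2, Finset.mem_filter] at hd
      exact y2_bound hT0 hV0 (hpq d hd.1).1 hd.2
    · intro D' hD' hyy hdd
      refine h2 R T V a b c p q D' ha hcube hR hT hSS2 hV hlog ?_ hyy hdd
      intro d hd
      have hd' := hD' hd
      rw [hD2, Finset.mem_filter] at hd'
      exact ⟨(hpq d hd'.1).1, hd'.2⟩
  have k1 : (D1.card : ℝ) ≤ B * ((2 * (200 * S / L) + 2) * (2 * (40000 / c₁) + 2)) := by
    have hch : ∀ d ∈ D1, Good 200 R T V a b c d (p d) (q d) ∧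
        Chart1 200 R T V b c d (p d) (q d) := by
      intro d hd
      rw [hD1, Finset.mem_filter] at hd
      obtain ⟨hg, hch⟩ := hpq d hd.1
      exact ⟨hg, hch.resolve_left hd.2⟩
    refine fibre D1 (fun d => (q d : ℝ) * T ^ 2 / p d) (200 * S) L c₁ 40000 B (by positivity)
      hL0 hc₁ (by norm_num) hB0 ?_ ?_ ?_
    · intro d hd
      exact (hch d hd).1.hd
    · intro d hd
      exact y1_bound hT0 hV0 (hch d hd).1 (hch d hd).2
    · intro D' hD' hyy hdd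
      exact h1 R T V a b c p q D' ha hcube hR hT hSS1 hV hlog (fun d hd => hch d (hD' hd)) hyy hdd
  have hSL : S / L = S ^ ((10 : ℝ) / 11) := by
    rw [hL, div_eq_iff (Real.rpow_pos_of_pos hS0 _).ne', ← Real.rpow_add hS0]
    norm_num
  have hSL1 : 1 ≤ S / L := by
    rw [hSL]
    exact Real.one_le_rpow hS1 (by norm_num)
  have hKS : K ≤ S ^ ((1 : ℝ) / 1200) := by
    have e : K = S₃ ^ ((1 : ℝ) / 1200) := by
      rw [hS₃, ← Real.rpow_mul (by linarith)]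
      norm_num
    rw [e]
    exact Real.rpow_le_rpow (by rw [hS₃]; positivity) hSK (by norm_num)
  have hf : 2 * (200 * S / L) + 2 ≤ 402 * (S / L) := by
    rw [mul_div_assoc]
    linarith
  calc (𝒟.card : ℝ) = (D2.card : ℝ) + (D1.card : ℝ) := by rw [← hcard]; push_cast; ring
    _ ≤ B * ((2 * (200 * S / L) + 2) * (2 * (40000 / c₂) + 2)) +
        B * ((2 * (200 * S / L) + 2) * (2 * (40000 / c₁) + 2)) := add_le_add k2 k1
    _ = B * (2 * (200 * S / L) + 2) * ((2 * (40000 / c₂) + 2) + (2 * (40000 / c₁) + 2)) := by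
      ring
    _ ≤ B * (402 * (S / L)) * ((2 * (40000 / c₂) + 2) + (2 * (40000 / c₁) + 2)) := by
      gcongr
    _ = K * (B * (S / L)) := by rw [hK]; ring
    _ ≤ S ^ ((1 : ℝ) / 1200) * (B * (S / L)) := by
      gcongr
    _ = S ^ (1 - (1 : ℝ) / 22 + 1 / 300) := by
      rw [hSL, hBdef, ← Real.rpow_add hS0, ← Real.rpow_add hS0]
      norm_num

end Pool.Agent.W284.HZFIB
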